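import Pool.Agent.P8H47.EC3.Val
import Pool.Agent.P8H54.EC3.Imm
import Pool.Agent.P8H48.EC3.Root
import Pool.Agent.P8H48.EC3.Uniq

/-! # Project EC3: the decomposition field is immediate -/

set_option autoImplicit false

namespace Pool.Agent.P8H47.EC3

open Pool.Agent.Y920.EP (Pw IsMaxP)

section

variable {F K : Type} [Field F] [Field K] [Algebra F K]

/-- the decomposition group of a valuation ring -/
def Z (O : ValuationSubring K) : Subgroup (K ≃ₐ[F] K) where
  carrier := {σ | ∀ x, σ x ∈ O ↔ x ∈ O}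
  mul_mem' := by
    intro σ τ hσ hτ x
    rw [AlgEquiv.mul_apply, hσ, hτ]
  one_mem' := fun x => Iff.rfl
  inv_mem' := by
    intro σ hσ x
    have h := hσ (σ⁻¹ x)
    have e : σ (σ⁻¹ x) = x := by rw [← AlgEquiv.mul_apply, mul_inv_cancel]; rfl
    rw [e] at h
    exact h.symm

theorem mem_Z {O : ValuationSubring K} {σ : K ≃ₐ[F] K} :
    σ ∈ Z (F := F) O ↔ ∀ x, σ x ∈ O ↔ x ∈ O := Iff.rfl

theorem Z_lt {O : ValuationSubring K} {σ : K ≃ₐ[F] K} (hσ : σ ∈ Z (F := F) O) {x : K}
    (hx : O.valuation x < 1) : O.valuation (σ x) < 1 := by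
  rw [lt_iff] at hx ⊢
  rcases hx with rfl | hx
  · left; rw [map_zero]
  · right
    rw [← map_inv₀]
    exact fun h => hx ((mem_Z.1 hσ _).1 h)

theorem lt_comap {K' : Type} [Field K'] (f : K' →+* K) {O : ValuationSubring K} {x : K'} :
    (O.comap f).valuation x < 1 ↔ O.valuation (f x) < 1 := by
  rw [lt_iff, lt_iff, ValuationSubring.mem_comap, map_inv₀, map_eq_zero]

/-- `L` is an immediate extension of `F` -/
def Imm (O : ValuationSubring K) (L : IntermediateField F K) : Prop :=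
  ∀ y ∈ L, y ≠ 0 → ∃ f : F, f ≠ 0 ∧ ∃ m ∈ L, O.valuation m < 1 ∧ y = algebraMap F K f * (1 + m)

theorem imm_adjoin {p : ℕ} (hp : p.Prime) {ζ : F} (hζ : IsPrimitiveRoot ζ p)
    {O : ValuationSubring K} (hpO : (p : K)⁻¹ ∈ O) {L : IntermediateField F K} (hL : Imm O L)
    {β m : K} (hβ : β ∉ L) (hm : m ∈ L) (hm1 : O.valuation m < 1) (hβm : β ^ p = 1 + m)
    (hβ1 : O.valuation (β - 1) < 1) :
    Imm O ((IntermediateField.adjoin L {β}).restrictScalars F) := by
  obtain ⟨L', hL'⟩ : ∃ L', L' = IntermediateField.adjoin L {β} := ⟨_, rfl⟩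
  rw [← hL']
  have hβL : β ∈ L' := hL' ▸ IntermediateField.mem_adjoin_simple_self L β
  have hζL : IsPrimitiveRoot (algebraMap F L ζ) p :=
    hζ.map_of_injective (algebraMap F L).injective
  have hgen : IntermediateField.adjoin L {(⟨β, hβL⟩ : L')} = ⊤ := by
    apply IntermediateField.lift_injective L'
    rw [IntermediateField.lift_adjoin_simple, IntermediateField.lift_top]
    exact hL'.symm
  have key := Pool.Agent.P8H54.EC3.imm p hp L L' (algebraMap F L ζ) hζL
    (O.comap (algebraMap L' K)) ⟨β, hβL⟩ ⟨m, hm⟩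
    (by
      rw [ValuationSubring.mem_comap, map_inv₀, map_natCast]
      exact hpO)
    (by
      apply Subtype.ext
      exact hβm)
    (by
      rw [lt_comap]
      exact hm1)
    (by
      rw [lt_comap]
      exact hβ1)
    (by
      rintro ⟨x, hx⟩
      apply hβ
      have h1 : (x : K) = β := congrArg Subtype.val hx
      rw [← h1]
      exact x.2)
    hgen
  intro y hy hy0
  obtain ⟨f, hf, m', hm', e⟩ := key ⟨y, hy⟩ (fun h => hy0 (congrArg Subtype.val h))
  have e' : y = (f : K) * (1 + (m' : K)) := congrArg Subtype.val e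
  have hm'1 : O.valuation (m' : K) < 1 := lt_comap (algebraMap L' K) |>.1 hm'
  obtain ⟨f₀, hf₀, m₀, hm₀, hm₀1, e₀⟩ := hL (f : K) f.2 (fun h => hf (Subtype.ext h))
  have hm₀L : m₀ ∈ L' := by
    have : algebraMap L K ⟨m₀, hm₀⟩ ∈ L' := L'.algebraMap_mem _
    exact this
  refine ⟨f₀, hf₀, m₀ + m' + m₀ * m', ?_, ?_, ?_⟩
  · exact add_mem (add_mem hm₀L m'.2) (mul_mem hm₀L m'.2)
  · exact lt_add (lt_add hm₀1 hm'1) (lt_mul hm₀1 hm'1.le)
  · rw [e', e₀]
    ring

/-- a maximal immediate extension -/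
theorem exists_max (O : ValuationSubring K) (E : IntermediateField F K) :
    ∃ L : IntermediateField F K, Maximal (fun L => L ≤ E ∧ Imm O L) L := by
  obtain ⟨L, -, hL⟩ := zorn_le_nonempty₀ {L : IntermediateField F K | L ≤ E ∧ Imm O L} (by
    intro c hc hchain y hy
    refine ⟨sSup c, ⟨sSup_le fun L hL => (hc hL).1, ?_⟩, fun z hz => le_sSup hz⟩
    have hne : Nonempty c := ⟨⟨y, hy⟩⟩
    have hmem : ∀ x, x ∈ sSup c → ∃ L ∈ c, x ∈ L := by
      intro x hx
      rw [sSup_eq_iSup', ← SetLike.mem_coe,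
        IntermediateField.coe_iSup_of_directed hchain.directedOn.directed_val,
        Set.mem_iUnion] at hx
      obtain ⟨⟨L, hL⟩, hxL⟩ := hx
      exact ⟨L, hL, hxL⟩
    intro x hx hx0
    obtain ⟨L, hL, hxL⟩ := hmem x hx
    obtain ⟨f, hf, m, hm, h1, h2⟩ := (hc hL).2 x hxL hx0
    exact ⟨f, hf, m, (le_sSup hL : L ≤ sSup c) hm, h1, h2⟩) ⊥ (by
    refine ⟨bot_le, fun y hy hy0 => ?_⟩
    obtain ⟨f, rfl⟩ := IntermediateField.mem_bot.1 hy
    refine ⟨f, fun h => hy0 (by rw [h, map_zero]), 0, zero_mem _, by rw [map_zero]; exact zero_lt_one, ?_⟩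
    rw [add_zero, mul_one])
  exact ⟨L, hL⟩

end

section

variable {p : ℕ} {F : Type} [Field F]

/-- the decomposition field is immediate, and its `1 + m` consists of `p`-th powers -/
theorem dec_field (hp : p.Prime) (hp2 : p ≠ 2) (hζ : ∃ ζ : F, IsPrimitiveRoot ζ p)
    (K : IntermediateField F (AlgebraicClosure F)) (hK : IsMaxP p F K)
    (O : ValuationSubring K) (hpO : (p : K)⁻¹ ∈ O) (hpK : (p : K) ≠ 0) :
    Imm O (IntermediateField.fixedField (Z (F := F) O)) ∧
    (∀ m ∈ IntermediateField.fixedField (Z (F := F) O), O.valuation m < 1 →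
      ∃ β ∈ IntermediateField.fixedField (Z (F := F) O), β ^ p = 1 + m) ∧
    ∀ σ : K ≃ₐ[IntermediateField.fixedField (Z (F := F) O)] K, ∀ x : K, σ x ∈ O ↔ x ∈ O := by
  obtain ⟨ζ, hζ⟩ := hζ
  obtain ⟨hG, -, -⟩ := Pool.Agent.Y469.EP.t_MAX' p hp F ⟨ζ, hζ⟩ K hK
  have hroot := Pool.Agent.P8H48.EC3.root p hp F ⟨ζ, hζ⟩ K hK
  have hζK : IsPrimitiveRoot (algebraMap F K ζ) p :=
    hζ.map_of_injective (algebraMap F K).injective
  obtain ⟨E, hE⟩ : ∃ E, E = IntermediateField.fixedField (Z (F := F) O) := ⟨_, rfl⟩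
  rw [← hE]
  have hmemE : ∀ x, x ∈ E ↔ ∀ σ ∈ Z (F := F) O, σ x = x := by
    intro x
    rw [hE, IntermediateField.mem_fixedField_iff]
  -- roots are in the decomposition field
  have hrootE : ∀ m ∈ E, O.valuation m < 1 → ∀ β : K, β ^ p = 1 + m →
      O.valuation (β - 1) < 1 → β ∈ E := by
    intro m hm hm1 β hβ hβ1
    rw [hmemE]
    intro σ hσ
    refine root_unique hp.ne_zero hpO hpK ?_ hβ1 ?_
    · have h1 := Z_lt hσ hβ1
      rwa [map_sub, map_one] at h1
    · rw [← map_pow, hβ, map_add, map_one, (hmemE m).1 hm σ hσ]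
  obtain ⟨L, hL⟩ := exists_max O E
  have hLE : L ≤ E := hL.prop.1
  have hLI : Imm O L := hL.prop.2
  -- the maximal immediate extension has all roots
  have hrootL : ∀ m ∈ L, O.valuation m < 1 → ∃ β ∈ L, β ^ p = 1 + m := by
    intro m hm hm1
    obtain ⟨β, hβ, hβ1⟩ := exists_root hp.pos hζK hroot hm1
    refine ⟨β, ?_, hβ⟩
    by_contra hβL
    have h1 := imm_adjoin hp hζ hpO hLI hβL hm hm1 hβ hβ1
    have h2 : (IntermediateField.adjoin L {β}).restrictScalars F ≤ E := by
      have hβE := hrootE m (hLE hm) hm1 β hβ hβ1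
      intro x hx
      have h3 : IntermediateField.adjoin L {β} ≤ (IntermediateField.extendScalars hLE) := by
        rw [IntermediateField.adjoin_simple_le_iff]
        exact hβE
      exact h3 hx
    have h3 : L ≤ (IntermediateField.adjoin L {β}).restrictScalars F := by
      intro x hx
      exact (IntermediateField.adjoin L {β}).algebraMap_mem ⟨x, hx⟩
    have h4 := hL.le_of_ge ⟨h2, h1⟩ h3
    exact hβL (h4 (IntermediateField.mem_adjoin_simple_self L β))
  have hPw : Pw p (O.comap (algebraMap L K)) := by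
    refine ⟨?_, ?_, ?_⟩
    · rw [ValuationSubring.mem_comap, map_inv₀, map_natCast]
      exact hpO
    · intro h0
      apply hpK
      have := congrArg (algebraMap L K) h0
      rwa [map_natCast, map_zero] at this
    · intro x _ hx'
      have h1 : O.valuation (x : K) < 1 := by
        rw [lt_iff]
        right
        rwa [ValuationSubring.mem_comap, map_inv₀] at hx'
      obtain ⟨β, hβ, e⟩ := hrootL (x : K) x.2 h1
      exact ⟨⟨β, hβ⟩, Subtype.ext e⟩
  have huniq := Pool.Agent.P8H48.EC3.uniq p hp hp2 F ⟨ζ, hζ⟩ K hK L O hPw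
  have hEL : E ≤ L := by
    have h1 : L.fixingSubgroup ≤ Z (F := F) O := by
      intro σ hσ x
      have h2 : ∀ y : L, σ (y : K) = y := fun y => by
        rw [IntermediateField.mem_fixingSubgroup_iff] at hσ
        exact hσ y y.2
      exact huniq (AlgEquiv.ofRingEquiv (f := σ.toRingEquiv) h2) x
    have h3 : E ≤ IntermediateField.fixedField L.fixingSubgroup := by
      intro x hx
      rw [IntermediateField.mem_fixedField_iff]
      intro σ hσ
      exact (hmemE x).1 hx σ (h1 hσ)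
    rwa [InfiniteGalois.fixedField_fixingSubgroup] at h3
  have e : L = E := le_antisymm hLE hEL
  subst e
  exact ⟨hLI, hrootL, huniq⟩

end

end Pool.Agent.P8H47.EC3
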