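import Mathlib
import Pool.Agent.Y920.EP.GalP
import Pool.Agent.P8H47.EC2.Stm

/-! # Project EC3 (MP_600e55_nt): the decomposition group of a minimal compatible subgroup (statements)

Aim: `T` minimal with a compatible valuation ring, `K = F(p)`: there is a decomposition group `H` in `Gal(K/F)` with nontrivial inertia and
fixed field `E` such that `T = F* ∩ E*^p` and `E* = F* E*^p`. Packages ROOT, IMM, UNIQ are independent.
-/

set_option autoImplicit false

namespace Pool.Agent.P8H47.EC3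

open Pool.Agent.Y920.EP (Pw IsMaxP)
open Pool.Agent.P8H47.EC2 (UU)

/-- ROOT (100 lines): the maximal `p`-extension is closed under `p`-th roots.

Proof (see `Pool/Agent/Y469/EP/Max.lean`: `Tw p L` = finite Galois of `p`-power degree, `Tw_sup`, `Tw_root`). Let `c ∈ K`. As in
`t_MAX'` there is `L` with `Tw p L`, `c ∈ L`, inside the algebraic closure. Let `α^p = c`. The field `M = L(β : β^p = σ(c) for a `σ`)` is
the supremum of finitely many `L(β)`, `Tw p (L(β))` over `L` by `Tw_root`, so `Tw p M` over `L` by `Tw_sup`; the set of these `β` is stable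
under all automorphisms of the algebraic closure over `F`, so `M/F` is normal, and of `p`-power degree. So `α ∈ M ≤ K`. -/
def S_ROOT : Prop := ∀ (p : ℕ), p.Prime → ∀ (F : Type) [Field F], (∃ ζ : F, IsPrimitiveRoot ζ p) →
  ∀ K : IntermediateField F (AlgebraicClosure F), IsMaxP p F K → ∀ c : K, ∃ y : K, y ^ p = c

/-- IMM (200 lines): a cyclic extension of degree `p` generated by a `p`-th root of an element of `1 + m` is immediate.
`UU`, `S_AP` are in `P8H47/EC2/Stm.lean`, proved in `P8H55/EC2/Ap.lean`.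

Proof. Write `m'` for the maximal ideal of `O'`. Let `σ` be the automorphism with `σ α = ζ α`, and `O_j = {x | σ^j x ∈ O'}`, `j = 0, ..., p - 1`.
(1) `α - ζ^j ∈ m_j` since `σ^j (α - ζ^j) = ζ^j (α - 1)`, and `ζ^i - ζ^j` is a unit of `O` for `i ≠ j` (it divides `p`). So
`n_i := α - ζ^i` (not `0`) is in `m_i` and a unit of `O_j` for `j ≠ i`.
(2) Let `j ≠ 0`, `τ = σ^j`, `W = O_0 O_j` (products `a b`). `τ W = O_(-j) O_0`. Both `W` and `τ W` contain `O_0` and are closed under
multiplication by `O_0`, so one contains the other (if `a ∈ A`, `a ∉ B` then `b / a ∈ O_0` for all `b ∈ B`), so they are equal since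
`τ^p = 1`. The nonunits of `W` (`x = 0` or `x⁻¹ ∉ W`) are closed under sums (`y⁻¹ = (1 + x/y) (x + y)⁻¹`).
(3) Let `x ∈ E'*`, `x = Σ a_i α^i` (`i < p`), `a = a_k` of smallest value, `u = x / a = Σ b_i α^i`, `b_i ∈ O`, `b_k = 1`. Then `u ∈ O_j` for all
`j`, and `u ∈ UU O_0 O_j` for `j ≠ 0`: otherwise `u` and all `τ^l u` are nonunits of `W`, so also
`Σ_l ζ^(-k j l) τ^l u = p b_k α^k`, but this is a unit of `O_0`.
(4) By `S_AP` (`a_0 = u`, `a_j = 1`) there is `c` with `c ∈ u (1 + n_0 O_0)` and `c ∈ 1 + n_j O_j` for `j ≠ 0`. So `σ^j c ∈ 1 + m'` for `j ≠ 0`, the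
norm `N(c) = Π σ^j c ∈ E` is in `u (1 + m')`, and `f = a N(c)` is as required. -/
def S_IMM : Prop := ∀ (p : ℕ), p.Prime → ∀ (E E' : Type) [Field E] [Field E'] [Algebra E E'] (ζ : E), IsPrimitiveRoot ζ p →
  ∀ (O' : ValuationSubring E') (α : E') (y : E), ((p : E')⁻¹ ∈ O') → α ^ p = algebraMap E E' (1 + y) →
    O'.valuation (algebraMap E E' y) < 1 → O'.valuation (α - 1) < 1 → α ∉ Set.range (algebraMap E E') →
    IntermediateField.adjoin E {α} = ⊤ →
    ∀ x : E', x ≠ 0 → ∃ f : E, f ≠ 0 ∧ ∃ m : E', O'.valuation m < 1 ∧ x = algebraMap E E' f * (1 + m)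

/-- UNIQ (100 lines): uniqueness of extensions.

Proof: as `hinv` in `Pool.Agent.Y920.EP.decInert` (`Y920/EP/GalP.lean`), with the base field `E` and `t_TOWER'` (`Y925/EP/Tower.lean`, which uses
`t_KUM`, `t_UP`). For `x ∈ K` one needs a finite Galois extension `L'` of `E` of `p`-power degree in `K` with `x ∈ L'`: by `t_MAX'` (`Y469/EP/Max.lean`)
`x` is in some `L` for `F`; `L'` is generated by `L` over `E`; its degree is the index of `Gal(K/E) ⊓ Gal(K/L)` in `Gal(K/E)`, which divides the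
index of the normal subgroup `Gal(K/L)` (`finrank_eq_index` in `Y469/EP/Max.lean`, `Subgroup.relIndex_dvd_index_of_normal`). -/
def S_UNIQ : Prop := ∀ (p : ℕ), p.Prime → p ≠ 2 → ∀ (F : Type) [Field F], (∃ ζ : F, IsPrimitiveRoot ζ p) →
  ∀ K : IntermediateField F (AlgebraicClosure F), IsMaxP p F K → ∀ (E : IntermediateField F K) (O : ValuationSubring K),
    Pw p (O.comap (algebraMap E K)) → ∀ (σ : K ≃ₐ[E] K) (x : K), σ x ∈ O ↔ x ∈ O

end Pool.Agent.P8H47.EC3
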