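import Pool.Agent.P8H47.EC3.Grp
import Pool.Agent.P8H47.EC2.Sim

/-! # Project EC3: symbols on the decomposition field -/

set_option autoImplicit false

namespace Pool.Agent.P8H47.EC3

open Pool.Agent.Y920.EP (Pw IsMaxP pwG)
open Pool.Agent.P8H47.EC (Cp MinCp)
open Pool.Agent.P8H47.EC2 (congr0 self0 anti0)
open Pool.Agent.N908.FR (IsSymbol)
open Pool.Agent.Results.MP_600e55_nt.SymbolPartitions

variable {p : ℕ} {F : Type} [Field F] {K : IntermediateField F (AlgebraicClosure F)}
  {T : Subgroup Fˣ} {O : ValuationSubring K}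

/-- the embedding `F* → E*` -/
noncomputable abbrev em (E : IntermediateField F K) : Fˣ →* Eˣ := Units.map (algebraMap F E : F →* E)

/-- the decomposition field -/
noncomputable abbrev DF (O : ValuationSubring K) : IntermediateField F K :=
  IntermediateField.fixedField (Z (F := F) O)

theorem mem_T (h : Good p K T O) {x : Fˣ} :
    x ∈ T ↔ ∃ y : (DF O)ˣ, em (DF O) x = y ^ p := by
  rw [h.ker]
  constructor
  · rintro ⟨y, hy, e⟩
    have hx0 : algebraMap F K (x : F) ≠ 0 := fun h0 =>
      x.ne_zero ((algebraMap F K).injective (by rw [map_zero]; exact h0))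
    by_cases hy0 : y = 0
    · by_cases hp : p = 0
      · subst hp
        rw [pow_zero] at e
        refine ⟨1, ?_⟩
        rw [one_pow]
        apply Units.ext
        apply Subtype.ext
        exact e.symm
      · exfalso
        rw [hy0, zero_pow hp] at e
        exact hx0 e.symm
    · refine ⟨Units.mk0 ⟨y, hy⟩ (fun h => hy0 (congrArg Subtype.val h)), ?_⟩
      apply Units.ext
      apply Subtype.ext
      exact e.symm
  · rintro ⟨y, e⟩
    refine ⟨(y : DF O), (y : DF O).2, ?_⟩
    exact (congrArg (fun z : (DF O)ˣ => ((z : DF O) : K)) e).symm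

/-- elements of the decomposition field, strong form -/
theorem near (h : Good p K T O) (x : (DF O)ˣ) :
    ∃ f : Fˣ, ∃ m : K, O.valuation m < 1 ∧ ((x : DF O) : K) = algebraMap F K f * (1 + m) := by
  obtain ⟨f, hf, m, -, hm, e⟩ := h.imm ((x : DF O) : K) (x : DF O).2
    (fun h0 => x.ne_zero (Subtype.ext h0))
  exact ⟨Units.mk0 f hf, m, hm, e⟩

theorem pow_of_near (h : Good p K T O) (hp : p ≠ 0) (x : (DF O)ˣ)
    (hx : O.valuation (((x : DF O) : K) - 1) < 1) : ∃ w : (DF O)ˣ, x = w ^ p := by
  obtain ⟨β, hβ, e⟩ := h.root (((x : DF O) : K) - 1) (sub_mem (x : DF O).2 (one_mem _)) hx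
  rw [add_sub_cancel] at e
  have hβ0 : β ≠ 0 := by
    rintro rfl
    rw [zero_pow hp] at e
    exact x.ne_zero (Subtype.ext e.symm)
  refine ⟨Units.mk0 ⟨β, hβ⟩ (fun h => hβ0 (congrArg Subtype.val h)), ?_⟩
  apply Units.ext
  apply Subtype.ext
  exact e.symm

theorem rep_of_near (h : Good p K T O) (hp : p ≠ 0) (x : (DF O)ˣ) (f : Fˣ) {m : K}
    (hm : O.valuation m < 1) (e : ((x : DF O) : K) = algebraMap F K f * (1 + m)) :
    ∃ w : (DF O)ˣ, x = em (DF O) f * w ^ p := by
  obtain ⟨w, hw⟩ := pow_of_near h hp ((em (DF O) f)⁻¹ * x) (by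
    have e1 : ((((em (DF O) f)⁻¹ * x : (DF O)ˣ) : DF O) : K) = 1 + m := by
      have e2 : ((((em (DF O) f)⁻¹ * x : (DF O)ˣ) : DF O) : K) =
          (algebraMap F K f)⁻¹ * ((x : DF O) : K) := by
        rw [Units.val_mul, Units.val_inv_eq_inv_val]
        rfl
      have hf : algebraMap F K (f : F) ≠ 0 := fun h0 =>
        f.ne_zero ((algebraMap F K).injective (by rw [map_zero]; exact h0))
      rw [e2, e, inv_mul_cancel_left₀ hf]
    rw [e1, add_sub_cancel_left]
    exact hm)
  exact ⟨w, by rw [← hw, mul_inv_cancel_left]⟩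

/-- `E* = F* E*^p` -/
theorem rep (h : Good p K T O) (hp : p ≠ 0) (x : (DF O)ˣ) :
    ∃ f : Fˣ, ∃ w : (DF O)ˣ, x = em (DF O) f * w ^ p := by
  obtain ⟨f, m, hm, e⟩ := near h x
  exact ⟨f, rep_of_near h hp x f hm e⟩

theorem rep_unique (h : Good p K T O) {f f' : Fˣ} {w w' : (DF O)ˣ}
    (e : em (DF O) f * w ^ p = em (DF O) f' * w' ^ p) : f⁻¹ * f' ∈ T := by
  rw [mem_T h]
  refine ⟨w * w'⁻¹, ?_⟩
  rw [map_mul, map_inv, mul_pow, inv_pow, inv_mul_eq_iff_eq_mul, ← mul_assoc, e, mul_inv_cancel_right]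

/-- symbols on `F` which vanish on `T × F*` extend uniquely to the decomposition field -/
theorem symb_ext [Fact p.Prime] (h : Good p K T O) (hm : (-1 : Fˣ) ∈ powers F p)
    {c : Fˣ → Fˣ → ZMod p} (hc : IsSymbol p F c) (hT : ∀ t ∈ T, ∀ x, c t x = 0) :
    ∃! c' : (DF O)ˣ → (DF O)ˣ → ZMod p, IsSymbol p (DF O) c' ∧
      ∀ x y : Fˣ, c x y = c' (em (DF O) x) (em (DF O) y) := by
  have hp : p ≠ 0 := (Fact.out : p.Prime).ne_zero
  have hT' : ∀ t ∈ T, ∀ x, c t x = 0 ∧ c x t = 0 := fun t ht x =>
    ⟨hT t ht x, by rw [anti0 hm hc, hT t ht x, neg_zero]⟩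
  have hpw : ∀ f : Fˣ, f ^ p ∈ T := fun f => (mem_T h).2 ⟨em (DF O) f, by rw [map_pow]⟩
  have hm1 : (-1 : Fˣ) ∈ T := by
    obtain ⟨f, e⟩ := hm
    rw [← e]
    exact hpw f
  choose g w hg using fun x => rep h hp x
  have hone : ∀ a : Fˣ, a⁻¹ * a ∈ T := fun a => by rw [inv_mul_cancel]; exact one_mem _
  -- other representatives
  have hrep : ∀ (x : (DF O)ˣ) (f : Fˣ) (v : (DF O)ˣ), x = em (DF O) f * v ^ p →
      (g x)⁻¹ * f ∈ T := by
    intro x f v e
    exact rep_unique h ((hg x).symm.trans e)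
  have hmul : ∀ a b, (g (a * b))⁻¹ * (g a * g b) ∈ T := by
    intro a b
    refine hrep (a * b) (g a * g b) (w a * w b) ?_
    conv_lhs => rw [hg a, hg b]
    rw [map_mul, mul_pow]
    exact mul_mul_mul_comm _ _ _ _
  refine ⟨fun x y => c (g x) (g y), ⟨⟨?_, ?_, ?_⟩, ?_⟩, ?_⟩
  · intro a b x
    rw [← hc.mul_left]
    exact congr0 hc hT' (hmul a b) (hone _)
  · intro x a b
    rw [← hc.mul_right]
    exact congr0 hc hT' (hone _) (hmul a b)
  · intro x y hxy
    change c (g x) (g y) = 0
    have hxy' : ((x : DF O) : K) + ((y : DF O) : K) = 1 := congrArg Subtype.val hxy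
    by_cases hx : O.valuation ((x : DF O) : K) < 1
    · -- `y` is near `1`
      obtain ⟨v, hv⟩ := pow_of_near h hp y (by
        have : ((y : DF O) : K) - 1 = -((x : DF O) : K) := by linear_combination hxy'
        rw [this, Valuation.map_neg]
        exact hx)
      have h1 : (g y)⁻¹ * 1 ∈ T := hrep y 1 v (by rw [map_one, one_mul]; exact hv)
      rw [congr0 hc hT' (hone (g x)) h1, hc.one_right]
    by_cases hy : O.valuation ((y : DF O) : K) < 1
    · obtain ⟨v, hv⟩ := pow_of_near h hp x (by
        have : ((x : DF O) : K) - 1 = -((y : DF O) : K) := by linear_combination hxy'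
        rw [this, Valuation.map_neg]
        exact hy)
      have h1 : (g x)⁻¹ * 1 ∈ T := hrep x 1 v (by rw [map_one, one_mul]; exact hv)
      rw [congr0 hc hT' h1 (hone (g y)), hc.one_left]
    by_cases hx1 : O.valuation ((x : DF O) : K) = 1
    · -- both are units
      obtain ⟨f, m, hm2, e⟩ := near h x
      have hy1 : O.valuation ((y : DF O) : K) = 1 := by
        apply le_antisymm _ (not_lt.1 hy)
        have : ((y : DF O) : K) = 1 - ((x : DF O) : K) := by linear_combination hxy'
        rw [this]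
        exact (Valuation.map_sub _ _ _).trans (by rw [map_one, hx1, max_self])
      have hf1 : O.valuation (algebraMap F K f) = 1 := by
        have h2 := hx1
        rw [e, map_mul, val_one_add hm2, mul_one] at h2
        exact h2
      have hfm : O.valuation (algebraMap F K f * m) < 1 := by
        rw [mul_comm]
        exact lt_mul hm2 hf1.le
      have hv1 : O.valuation (algebraMap F K (1 - f)) = 1 := by
        have e2 : algebraMap F K (1 - f) = ((y : DF O) : K) + algebraMap F K f * m := by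
          rw [map_sub, map_one]
          linear_combination (-1 : K) * hxy' + e
        rw [e2, Valuation.map_add_eq_of_lt_left _ (by rw [hy1]; exact hfm), hy1]
      have hf0 : (1 : F) - f ≠ 0 := by
        intro h0
        rw [h0, map_zero, map_zero] at hv1
        exact zero_ne_one hv1
      obtain ⟨w1, hw1⟩ := rep_of_near h hp x f hm2 e
      have hK0 : algebraMap F K (1 - f) ≠ 0 := fun h0 => by
        rw [h0, map_zero] at hv1
        exact zero_ne_one hv1
      obtain ⟨w2, hw2⟩ := rep_of_near h hp y (Units.mk0 _ hf0)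
        (m := -(algebraMap F K f * m) * (algebraMap F K (1 - f))⁻¹) (by
          refine lt_mul ?_ ?_
          · rw [Valuation.map_neg]; exact hfm
          · rw [map_inv₀, hv1, inv_one]) (by
          rw [Units.val_mk0]
          field_simp
          rw [map_sub, map_one]
          linear_combination hxy' - e)
      rw [congr0 hc hT' (hrep x f w1 hw1) (hrep y _ w2 hw2)]
      exact hc.steinberg _ _ (by rw [Units.val_mk0]; ring)
    · -- `x` is large
      have hx2 : 1 < O.valuation ((x : DF O) : K) := lt_of_le_of_ne (not_lt.1 hx) (Ne.symm hx1)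
      have hx0 : ((x : DF O) : K) ≠ 0 := fun h0 => by
        rw [h0, map_zero] at hx2
        exact absurd hx2 (not_lt.2 zero_le_one)
      obtain ⟨v, hv⟩ := pow_of_near h hp (-(x⁻¹ * y)) (by
        have e1 : (((-(x⁻¹ * y) : (DF O)ˣ) : DF O) : K) = -(((x : DF O) : K)⁻¹ * ((y : DF O) : K)) := by
          rw [Units.val_neg, Units.val_mul, Units.val_inv_eq_inv_val]
          rfl
        have e2 : -(((x : DF O) : K)⁻¹ * ((y : DF O) : K)) - 1 = -((x : DF O) : K)⁻¹ := by
          field_simp
          linear_combination (-1 : K) * hxy'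
        rw [e1, e2, Valuation.map_neg, map_inv₀]
        exact inv_lt_one_of_one_lt₀ hx2)
      have h1 : y = em (DF O) (-(g x)) * (w x * v) ^ p := by
        have e3 : y = -(x * v ^ p) := by
          rw [← hv, mul_neg, neg_neg, mul_inv_cancel_left]
        have e4 : em (DF O) (-(g x)) = -(em (DF O) (g x)) := by
          apply Units.ext
          rw [Units.val_neg, Units.coe_map, Units.coe_map, Units.val_neg]
          exact map_neg (algebraMap F (DF O)) _
        rw [e4, e3, neg_mul, mul_pow, ← mul_assoc, ← hg x]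
      have h2 := hrep y _ _ h1
      rw [congr0 hc hT' (hone (g x)) h2]
      exact hc.neg_self _
  · intro x y
    exact congr0 hc hT'
      (by
        have := hrep (em (DF O) x) x 1 (by rw [one_pow, mul_one])
        have h3 := inv_mem this
        rwa [mul_inv_rev, inv_inv] at h3)
      (by
        have := hrep (em (DF O) y) y 1 (by rw [one_pow, mul_one])
        have h3 := inv_mem this
        rwa [mul_inv_rev, inv_inv] at h3)
  · rintro c' ⟨hc', hcc⟩
    funext x y
    conv_lhs => rw [hg x, hg y]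
    have hpw' : ∀ z : (DF O)ˣ, z ^ p ∈ powers (DF O) p := fun z => ⟨z, rfl⟩
    rw [hc'.mul_left, hc'.of_mem_left (hpw' _), add_zero, hc'.mul_right, hc'.of_mem_right (hpw' _),
      add_zero, ← hcc]

/-- restrictions of symbols vanish on `T × F*` -/
theorem symb_res [Fact p.Prime] (h : Good p K T O) {c' : (DF O)ˣ → (DF O)ˣ → ZMod p}
    (hc' : IsSymbol p (DF O) c') {t : Fˣ} (ht : t ∈ T) (x : Fˣ) :
    c' (em (DF O) t) (em (DF O) x) = 0 := by
  obtain ⟨y, e⟩ := (mem_T h).1 ht
  rw [e]
  exact hc'.of_mem_left ⟨y, rfl⟩ _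

end Pool.Agent.P8H47.EC3
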