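import Pool.Agent.P8H47.EC3.Stm

/-! # Project EC3: roots of elements of `1 + m` -/

set_option autoImplicit false

namespace Pool.Agent.P8H47.EC3

section

variable {K : Type} [Field K] {O : ValuationSubring K}

theorem lt_iff {x : K} : O.valuation x < 1 ↔ x = 0 ∨ x⁻¹ ∉ O := by
  by_cases h0 : x = 0
  · simp [h0]
  rw [← ValuationSubring.valuation_le_one_iff, map_inv₀, not_le,
    one_lt_inv₀ ((Valuation.pos_iff _).2 h0)]
  simp [h0]

theorem lt_add {x y : K} (hx : O.valuation x < 1) (hy : O.valuation y < 1) :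
    O.valuation (x + y) < 1 := Valuation.map_add_lt _ hx hy

theorem lt_mul {x y : K} (hx : O.valuation x < 1) (hy : O.valuation y ≤ 1) :
    O.valuation (x * y) < 1 := by
  rw [map_mul]
  exact mul_lt_one_of_nonneg_of_lt_one_left zero_le hx hy

theorem val_one_add {x : K} (hx : O.valuation x < 1) : O.valuation (1 + x) = 1 :=
  Valuation.map_one_add_of_lt _ hx

variable {p : ℕ}

/-- `p`-th powers near `1` -/
theorem pow_near {x : K} (hx : O.valuation (x - 1) < 1) (n : ℕ) :
    O.valuation (x ^ n - 1) < 1 := by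
  have h1 : O.valuation x = 1 := by
    have := val_one_add hx
    rwa [add_sub_cancel] at this
  induction n with
  | zero => simp
  | succ n ih =>
    have e : x ^ (n + 1) - 1 = (x ^ n - 1) * x + (x - 1) := by ring
    rw [e]
    exact lt_add (lt_mul ih h1.le) hx

theorem root_of_unity (hp : p ≠ 0) (hpO : (p : K)⁻¹ ∈ O) (hpK : (p : K) ≠ 0) {μ : K}
    (hμ : μ ^ p = 1) (h : O.valuation (μ - 1) < 1) : μ = 1 := by
  by_contra hne
  have h1 : ∑ i ∈ Finset.range p, μ ^ i = 0 := by
    have h2 := geom_sum_mul μ p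
    rw [hμ, sub_self] at h2
    exact (mul_eq_zero.1 h2).resolve_right (sub_ne_zero.2 hne)
  have h2 : ∀ n : ℕ, O.valuation (∑ i ∈ Finset.range n, μ ^ i - n) < 1 := by
    intro n
    induction n with
    | zero => simp
    | succ n ih =>
      rw [Finset.sum_range_succ]
      have e : ∑ i ∈ Finset.range n, μ ^ i + μ ^ n - ((n + 1 : ℕ) : K) =
          (∑ i ∈ Finset.range n, μ ^ i - n) + (μ ^ n - 1) := by push_cast; ring
      rw [e]
      exact lt_add ih (pow_near h n)
  have h3 := h2 p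
  rw [h1, zero_sub, Valuation.map_neg, lt_iff] at h3
  rcases h3 with h3 | h3
  · exact hpK h3
  · exact h3 hpO

theorem root_unique (hp : p ≠ 0) (hpO : (p : K)⁻¹ ∈ O) (hpK : (p : K) ≠ 0) {β β' : K}
    (h : O.valuation (β - 1) < 1) (h' : O.valuation (β' - 1) < 1) (e : β ^ p = β' ^ p) :
    β = β' := by
  have hb : ∀ {x : K}, O.valuation (x - 1) < 1 → O.valuation x = 1 := by
    intro x hx
    have := val_one_add hx
    rwa [add_sub_cancel] at this
  have h0 : β' ≠ 0 := fun h0 => by
    have := hb h'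
    rw [h0, map_zero] at this
    exact zero_ne_one this
  have h1 : β / β' = 1 := by
    refine root_of_unity hp hpO hpK (by rw [div_pow, e, div_self (pow_ne_zero _ h0)]) ?_
    have e2 : β / β' - 1 = ((β - 1) + -(β' - 1)) * β'⁻¹ := by
      field_simp
      ring
    rw [e2]
    refine lt_mul (lt_add h ?_) ?_
    · rw [Valuation.map_neg]; exact h'
    · rw [map_inv₀, hb h', inv_one]
  rwa [div_eq_one_iff_eq h0] at h1

theorem exists_root (hp : 0 < p) {ζ : K} (hζ : IsPrimitiveRoot ζ p)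
    (hroot : ∀ c : K, ∃ y : K, y ^ p = c) {m : K} (hm : O.valuation m < 1) :
    ∃ β : K, β ^ p = 1 + m ∧ O.valuation (β - 1) < 1 := by
  obtain ⟨α, hα⟩ := hroot (1 + m)
  have h1 := hζ.pow_sub_pow_eq_prod_sub_mul α 1 hp
  rw [one_pow, hα, add_sub_cancel_left] at h1
  obtain ⟨μ, hμ, h2⟩ : ∃ μ ∈ Polynomial.nthRootsFinset p (1 : K), O.valuation (α - μ * 1) < 1 := by
    by_contra hc
    push Not at hc
    have h3 : (1 : O.ValueGroup) ≤ O.valuation (∏ ζ ∈ Polynomial.nthRootsFinset p (1 : K), (α - ζ * 1)) := by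
      rw [map_prod]
      exact Finset.one_le_prod' fun i hi => hc i hi
    rw [← h1] at h3
    exact absurd hm (not_lt.2 h3)
  have hμ1 : μ ^ p = 1 := by
    have := (Polynomial.mem_nthRootsFinset hp (1 : K)).1 hμ
    exact this
  have hμ0 : μ ≠ 0 := fun h0 => by
    rw [h0, zero_pow hp.ne'] at hμ1
    exact zero_ne_one hμ1
  have hvμ : O.valuation μ = 1 := by
    have h4 : O.valuation μ ^ p = 1 := by rw [← map_pow, hμ1, map_one]
    exact (pow_eq_one_iff.1 h4).resolve_right hp.ne'
  refine ⟨μ⁻¹ * α, ?_, ?_⟩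
  · rw [mul_pow, inv_pow, hμ1, inv_one, one_mul, hα]
  · have e : μ⁻¹ * α - 1 = (α - μ * 1) * μ⁻¹ := by
      field_simp
    rw [e]
    refine lt_mul h2 ?_
    rw [map_inv₀, hvμ, inv_one]

end

end Pool.Agent.P8H47.EC3
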